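import Pool.Agent.Q157.DC.Stm

/-!
# Project DC, job bad1
-/

set_option autoImplicit false

open Finset Filter Topology
open scoped symmDiff

namespace Pool.Agent.Q166.DC.BadOne

open Pool.Agent.Q157.DC

theorem card_small (n K : ℕ) :
    (univ.filter (fun t : Finset (Fin n) => t.card ≤ K)).card ≤ (n + 1) ^ K := by
  classical
  have h1 : (univ.filter (fun t : Finset (Fin n) => t.card ≤ K)) ⊆
      (range (K + 1)).biUnion (fun j => powersetCard j (univ : Finset (Fin n))) := by
    intro t ht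
    rw [Finset.mem_filter] at ht
    rw [Finset.mem_biUnion]
    exact ⟨t.card, Finset.mem_range.2 (by omega), Finset.mem_powersetCard.2 ⟨subset_univ _, rfl⟩⟩
  calc (univ.filter (fun t : Finset (Fin n) => t.card ≤ K)).card
      ≤ ((range (K + 1)).biUnion (fun j => powersetCard j (univ : Finset (Fin n)))).card :=
        Finset.card_le_card h1
    _ ≤ ∑ j ∈ range (K + 1), (powersetCard j (univ : Finset (Fin n))).card := card_biUnion_le
    _ = ∑ j ∈ range (K + 1), n.choose j := by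
        refine Finset.sum_congr rfl fun j _ => ?_
        rw [card_powersetCard, Finset.card_univ, Fintype.card_fin]
    _ ≤ ∑ j ∈ range (K + 1), n ^ j * 1 ^ (K - j) * K.choose j := by
        refine Finset.sum_le_sum fun j hj => ?_
        rw [Finset.mem_range] at hj
        have h2 : n.choose j ≤ n ^ j := Nat.choose_le_pow n j
        have h3 : 1 ≤ K.choose j := Nat.choose_pos (by omega)
        calc n.choose j ≤ n ^ j := h2
          _ = n ^ j * 1 := (mul_one _).symm
          _ ≤ n ^ j * K.choose j := Nat.mul_le_mul_left _ h3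
          _ = _ := by rw [one_pow, mul_one]
    _ = (n + 1) ^ K := (add_pow n 1 K).symm

theorem nearCard : S_nearCard := by
  intro n K x
  classical
  have h1 : (univ.filter (fun s : Vx n => near K x s)) ⊆
      (univ.filter (fun s : Vx n => (x ∆ s).card ≤ K)) ∪
        (univ.filter (fun s : Vx n => ((x ∆ s)ᶜ).card ≤ K)) := by
    intro s hs
    rw [Finset.mem_filter] at hs
    rw [Finset.mem_union, Finset.mem_filter, Finset.mem_filter]
    rcases hs.2 with h | h
    · exact Or.inl ⟨mem_univ _, h⟩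
    · refine Or.inr ⟨mem_univ _, ?_⟩
      rw [Finset.card_compl, Fintype.card_fin]
      omega
  have h2 : (univ.filter (fun s : Vx n => (x ∆ s).card ≤ K)).card ≤ (n + 1) ^ K := by
    refine le_trans ?_ (card_small n K)
    refine Finset.card_le_card_of_injOn (fun s => x ∆ s) ?_ ?_
    · intro s hs
      simp only [Finset.coe_filter, Finset.mem_univ, true_and, Set.mem_setOf_eq] at hs ⊢
      exact hs
    · intro s _ s' _ h
      exact symmDiff_right_injective x h
  have h3 : (univ.filter (fun s : Vx n => ((x ∆ s)ᶜ).card ≤ K)).card ≤ (n + 1) ^ K := by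
    refine le_trans ?_ (card_small n K)
    refine Finset.card_le_card_of_injOn (fun s => (x ∆ s)ᶜ) ?_ ?_
    · intro s hs
      simp only [Finset.coe_filter, Finset.mem_univ, true_and, Set.mem_setOf_eq] at hs ⊢
      exact hs
    · intro s _ s' _ h
      exact symmDiff_right_injective x (compl_injective h)
  have h4 := (Finset.card_le_card h1).trans (Finset.card_union_le _ _)
  have h5 : (univ.filter (fun s : Vx n => near K x s)).card ≤ 2 * (n + 1) ^ K := by omega
  refine le_trans (le_of_eq ?_) h5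
  congr 1

theorem bad1 (h1 : S_basic) (h2 : S_nearCard) : S_bad1 := by
  intro pv pe δ ρ C m hv0 hv1 he0 he1 hρ0 hC0 hρ hPB K
  classical
  have hrt : ∀ n : ℕ, ∀ i, 0 ≤ rt pv pe n i ∧ rt pv pe n i ≤ 1 := by
    intro n i
    rcases i with i | i
    · exact ⟨hv0.le, hv1⟩
    · exact ⟨he0.le, he1⟩
  have hbound : ∀ n : ℕ, Pr (rt pv pe n) (Bad1 δ m K) ≤
      2 ^ n * (2 * ((n : ℝ) + 1) ^ K) ^ (m + 1) * (C * ρ ^ ((m + 1) * n)) := by
    intro n
    obtain ⟨-, -, hb, hmono, -, -, hunion, -⟩ := h1 (rt pv pe n) (hrt n)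
    let N : Vx n → Finset (Vx n) := fun x => univ.filter (fun s => near K x s)
    let Fx : Vx n → Finset (Vx n × Finset (Vx n)) := fun x =>
      (powersetCard (m + 1) (N x)).image (fun S => (x, S))
    let F : Finset (Vx n × Finset (Vx n)) := univ.biUnion Fx
    have hN : ∀ x, (N x).card ≤ 2 * (n + 1) ^ K := by
      intro x
      refine le_trans (le_of_eq ?_) (h2 n K x)
      congr 1
    have hFx : ∀ x, (Fx x).card ≤ (2 * (n + 1) ^ K) ^ (m + 1) := by
      intro x
      calc (Fx x).card ≤ (powersetCard (m + 1) (N x)).card := Finset.card_image_le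
        _ = (N x).card.choose (m + 1) := card_powersetCard _ _
        _ ≤ (N x).card ^ (m + 1) := Nat.choose_le_pow _ _
        _ ≤ _ := Nat.pow_le_pow_left (hN x) _
    have hF : F.card ≤ 2 ^ n * (2 * (n + 1) ^ K) ^ (m + 1) := by
      calc F.card ≤ ∑ x : Vx n, (Fx x).card := card_biUnion_le
        _ ≤ ∑ _x : Vx n, (2 * (n + 1) ^ K) ^ (m + 1) := Finset.sum_le_sum fun x _ => hFx x
        _ = _ := by
            rw [Finset.sum_const, Finset.card_univ, Fintype.card_finset, Fintype.card_fin,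
              smul_eq_mul]
    have h3 : Pr (rt pv pe n) (Bad1 δ m K) ≤
        Pr (rt pv pe n) (fun ω => ∃ t ∈ F, ∀ s ∈ t.2, poor δ ω s) := by
      refine hmono _ _ fun ω hω => ?_
      obtain ⟨x, S, hS, hnear, hpoor⟩ := hω
      refine ⟨(x, S), ?_, hpoor⟩
      rw [Finset.mem_biUnion]
      refine ⟨x, mem_univ _, ?_⟩
      rw [Finset.mem_image]
      refine ⟨S, ?_, rfl⟩
      rw [Finset.mem_powersetCard]
      refine ⟨fun s hs => ?_, hS⟩
      rw [Finset.mem_filter]
      exact ⟨mem_univ _, hnear s hs⟩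
    have h4 : ∀ t ∈ F, Pr (rt pv pe n) (fun ω => ∀ s ∈ t.2, poor δ ω s) ≤
        C * ρ ^ ((m + 1) * n) := by
      intro t ht
      rw [Finset.mem_biUnion] at ht
      obtain ⟨x, -, hx⟩ := ht
      rw [Finset.mem_image] at hx
      obtain ⟨S, hS, rfl⟩ := hx
      rw [Finset.mem_powersetCard] at hS
      exact hPB n S hS.2
    calc Pr (rt pv pe n) (Bad1 δ m K)
        ≤ Pr (rt pv pe n) (fun ω => ∃ t ∈ F, ∀ s ∈ t.2, poor δ ω s) := h3
      _ ≤ ∑ t ∈ F, Pr (rt pv pe n) (fun ω => ∀ s ∈ t.2, poor δ ω s) :=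
          hunion F (fun t ω => ∀ s ∈ t.2, poor δ ω s)
      _ ≤ ∑ _t ∈ F, C * ρ ^ ((m + 1) * n) := Finset.sum_le_sum h4
      _ = (F.card : ℝ) * (C * ρ ^ ((m + 1) * n)) := by rw [Finset.sum_const, nsmul_eq_mul]
      _ ≤ _ := by
          refine mul_le_mul_of_nonneg_right ?_ (by positivity)
          exact_mod_cast hF
  set r : ℝ := 2 * ρ ^ (m + 1) with hr
  have hr0 : 0 < r := by positivity
  have hlim : Tendsto (fun n : ℕ =>
      C * 2 ^ (m + 1) * r⁻¹ * (((n + 1 : ℕ) : ℝ) ^ (K * (m + 1)) * r ^ (n + 1))) atTop (𝓝 0) := by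
    have h5 : Tendsto (fun n : ℕ => ((n : ℝ) ^ (K * (m + 1)) * r ^ n)) atTop (𝓝 0) :=
      tendsto_pow_const_mul_const_pow_of_abs_lt_one _ (by rw [abs_of_pos hr0]; exact hρ)
    have h6 := (h5.comp (tendsto_add_atTop_nat 1)).const_mul (C * 2 ^ (m + 1) * r⁻¹)
    rw [mul_zero] at h6
    exact h6
  refine squeeze_zero (fun n => ((h1 (rt pv pe n) (hrt n)).2.2.1 _).1) (fun n => ?_) hlim
  refine (hbound n).trans (le_of_eq ?_)
  have e1 : (2 * ((n : ℝ) + 1) ^ K) ^ (m + 1) = 2 ^ (m + 1) * ((n : ℝ) + 1) ^ (K * (m + 1)) := by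
    rw [mul_pow, ← pow_mul]
  have e2 : (2 : ℝ) ^ n * ρ ^ ((m + 1) * n) = r⁻¹ * r ^ (n + 1) := by
    rw [pow_mul, ← mul_pow, ← hr, pow_succ]
    field_simp
  push_cast
  calc (2 : ℝ) ^ n * (2 * ((n : ℝ) + 1) ^ K) ^ (m + 1) * (C * ρ ^ ((m + 1) * n))
      = C * (2 * ((n : ℝ) + 1) ^ K) ^ (m + 1) * (2 ^ n * ρ ^ ((m + 1) * n)) := by ring
    _ = _ := by
        rw [e1, e2]
        ring

end Pool.Agent.Q166.DC.BadOne
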