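import Pool.Agent.Q157.DC.Stm

/-!
# Project DC, jobs case1, case2
-/

set_option autoImplicit false

open Finset Filter Topology
open scoped symmDiff

namespace Pool.Agent.Q166.DC.Cases

open Pool.Agent.Q157.DC

theorem e1 {n : ℕ} (x y : Vx n) (I I' A : Finset (Fin n)) (hd : Disjoint I I')
    (hA : Disjoint A (I ∪ I')) (a b : Fin n) (ha : a ∈ I) (hb : b ∈ I') :
    (x ∆ {a}) ∆ bn I I' (x ∆ {a}) (y ∆ {b}) (x ∆ A) = (((x ∆ y) ∆ {b}) ∩ I') ∪ A := by
  ext t
  have h1 : t ∈ I → t ∉ I' := fun h h' => Finset.disjoint_left.1 hd h h'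
  have h2 : t ∈ A → t ∉ I ∧ t ∉ I' := fun h => by
    have := Finset.disjoint_left.1 hA h
    rw [Finset.mem_union, not_or] at this
    exact this
  have h3 : t = a → t ∈ I := fun h => h ▸ ha
  have h4 : t = b → t ∈ I' := fun h => h ▸ hb
  unfold bn
  simp only [Finset.mem_symmDiff, Finset.mem_union, Finset.mem_inter, Finset.mem_sdiff,
    Finset.mem_singleton]
  generalize (t = a) = pa at h3 ⊢
  generalize (t = b) = pb at h4 ⊢
  by_cases c1 : t ∈ I
  · have c2 := h1 c1
    have c3 : t ∉ A := fun h => (h2 h).1 c1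
    by_cases d1 : t ∈ x <;> by_cases d3 : pa <;> simp [c1, c2, c3, d1, d3]
  · have c3 : ¬ pa := fun h => c1 (h3 h)
    by_cases c2 : t ∈ I'
    · have c4 : t ∉ A := fun h => (h2 h).2 c2
      by_cases d1 : t ∈ x <;> by_cases d2 : t ∈ y <;> by_cases d3 : pb <;>
        simp [c1, c2, c3, c4, d1, d2, d3]
    · have c4 : ¬ pb := fun h => c2 (h4 h)
      by_cases d1 : t ∈ x <;> by_cases d2 : t ∈ A <;>
        simp [c1, c2, c3, d1, d2]

theorem bn_swap {n : ℕ} (I I' : Finset (Fin n)) (u w α : Vx n) :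
    bn I I' u w α = bn I' I w u α := by
  unfold bn
  rw [Finset.union_comm I' I, Finset.union_comm (w ∩ I') (u ∩ I)]

theorem e2 {n : ℕ} (x y : Vx n) (I I' B : Finset (Fin n)) (hd : Disjoint I I')
    (hB : Disjoint B (I ∪ I')) (a b : Fin n) (ha : a ∈ I) (hb : b ∈ I') :
    bn I I' (x ∆ {a}) (y ∆ {b}) (y ∆ B) ∆ (y ∆ {b}) = (((x ∆ y) ∆ {a}) ∩ I) ∪ B := by
  rw [bn_swap, symmDiff_comm, e1 y x I' I B hd.symm (by rwa [Finset.union_comm]) b a hb ha,
    symmDiff_comm y x]

theorem e3 {n : ℕ} (x y u w : Vx n) (I I' A B : Finset (Fin n))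
    (hA : Disjoint A (I ∪ I')) (hB : Disjoint B (I ∪ I')) :
    bn I I' u w (x ∆ A) ∆ bn I I' u w (y ∆ B) = ((x ∆ y) \ (I ∪ I')) ∆ (A ∆ B) := by
  ext t
  have h2 : t ∈ A → t ∉ I ∧ t ∉ I' := fun h => by
    have := Finset.disjoint_left.1 hA h
    rw [Finset.mem_union, not_or] at this
    exact this
  have h3 : t ∈ B → t ∉ I ∧ t ∉ I' := fun h => by
    have := Finset.disjoint_left.1 hB h
    rw [Finset.mem_union, not_or] at this
    exact this
  unfold bn
  simp only [Finset.mem_symmDiff, Finset.mem_union, Finset.mem_inter, Finset.mem_sdiff]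
  by_cases c1 : t ∈ I
  · have c3 : t ∉ A := fun h => (h2 h).1 c1
    have c4 : t ∉ B := fun h => (h3 h).1 c1
    by_cases d1 : t ∈ u <;> simp [c1, c3, c4, d1]
  · by_cases c2 : t ∈ I'
    · have c3 : t ∉ A := fun h => (h2 h).2 c2
      have c4 : t ∉ B := fun h => (h3 h).2 c2
      by_cases d1 : t ∈ w <;> simp [c1, c2, c3, c4, d1]
    · simp only [c1, c2]
      by_cases d1 : t ∈ x <;> by_cases d2 : t ∈ y <;> by_cases d3 : t ∈ A <;>
        by_cases d4 : t ∈ B <;> simp [d1, d2, d3, d4]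

/-- injectivity -/
theorem inj1 {n : ℕ} (x y : Vx n) (I I' A A' : Finset (Fin n)) (hd : Disjoint I I')
    (hA : Disjoint A (I ∪ I')) (hA' : Disjoint A' (I ∪ I')) (a b : Fin n) (ha : a ∈ I)
    (hb : b ∈ I') (h : bn I I' (x ∆ {a}) (y ∆ {b}) (x ∆ A) = bn I I' (x ∆ {a}) (y ∆ {b}) (x ∆ A')) :
    A = A' := by
  have h1 := e1 x y I I' A hd hA a b ha hb
  have h2 := e1 x y I I' A' hd hA' a b ha hb
  rw [h, h2] at h1
  ext t
  have h3 : t ∈ A → t ∉ I' := fun h => by
    have := Finset.disjoint_left.1 hA h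
    rw [Finset.mem_union, not_or] at this
    exact this.2
  have h4 : t ∈ A' → t ∉ I' := fun h => by
    have := Finset.disjoint_left.1 hA' h
    rw [Finset.mem_union, not_or] at this
    exact this.2
  have h5 := Finset.ext_iff.1 h1 t
  simp only [Finset.mem_union, Finset.mem_inter] at h5
  tauto

theorem inj2 {n : ℕ} (x y : Vx n) (I I' A A' : Finset (Fin n)) (hd : Disjoint I I')
    (hA : Disjoint A (I ∪ I')) (hA' : Disjoint A' (I ∪ I')) (a b : Fin n) (ha : a ∈ I)
    (hb : b ∈ I') (h : bn I I' (x ∆ {a}) (y ∆ {b}) (y ∆ A) = bn I I' (x ∆ {a}) (y ∆ {b}) (y ∆ A')) :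
    A = A' := by
  rw [bn_swap, bn_swap I I'] at h
  exact inj1 y x I' I A A' hd.symm (by rwa [Finset.union_comm]) (by rwa [Finset.union_comm])
    b a hb ha h

theorem exn0 (δ : ℝ) (hδ : 0 < δ) (K : ℕ) : ∃ n₀ : ℕ, ∀ n ≥ n₀, (K : ℝ) ≤ δ * n / 16 := by
  refine ⟨⌈16 * K / δ⌉₊, fun n hn => ?_⟩
  have h1 : 16 * K / δ ≤ (n : ℝ) := (Nat.le_ceil _).trans (by exact_mod_cast hn)
  rw [div_le_iff₀ hδ] at h1
  linarith

theorem case1 : S_case1 := by
  intro δ m J k₀ hδ0 hδ1
  obtain ⟨n₀, hn₀⟩ := exn0 δ hδ0 (k₀ + J + m + 3)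
  refine ⟨n₀, fun n hn x y I I' hAdm hD => ?_⟩
  have ht := hn₀ n hn
  set M := ⌊δ * n / 16⌋₊ with hM
  obtain ⟨hI, hI', hd, hcase⟩ := hAdm
  rw [← hM] at hI hI'
  have hn0 : (0 : ℝ) ≤ n := Nat.cast_nonneg n
  have hMle : (M : ℝ) ≤ δ * n / 16 := Nat.floor_le (by positivity)
  have hMge : k₀ + J + m + 3 ≤ M := Nat.le_floor ht
  have hsub : I ⊆ x ∆ y ∧ I' ⊆ x ∆ y := by
    rcases hcase with h | h
    · exact h.2
    · exact absurd h.1 (not_lt.2 hD)
  have hDbig : k₀ + 2 * J + 2 * M + 3 ≤ (x ∆ y).card := by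
    have h1 : ((k₀ + 2 * J + 2 * M + 3 : ℕ) : ℝ) ≤ ((x ∆ y).card : ℝ) := by
      refine le_trans ?_ hD
      push_cast at ht ⊢
      have h2 : δ * n ≤ 1 / 2 * n := mul_le_mul_of_nonneg_right hδ1 hn0
      have h3 : (0 : ℝ) ≤ m := Nat.cast_nonneg m
      have h4 : (0 : ℝ) ≤ k₀ := Nat.cast_nonneg k₀
      have h5 : (0 : ℝ) ≤ J := Nat.cast_nonneg J
      nlinarith
    exact_mod_cast h1
  set R := (x ∆ y) \ (I ∪ I') with hR
  have hIsub : I ∪ I' ⊆ x ∆ y := Finset.union_subset hsub.1 hsub.2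
  have hRcard : R.card + 2 * M = (x ∆ y).card := by
    have h1 := Finset.card_sdiff_add_card_eq_card hIsub
    rw [Finset.card_union_of_disjoint hd, hI, hI', ← hR] at h1
    omega
  have hemb : Nonempty ((Fin J ⊕ Fin J) ↪ {t // t ∈ R}) := by
    refine Function.Embedding.nonempty_of_card_le ?_
    rw [Fintype.card_sum, Fintype.card_fin, Fintype.card_coe]
    omega
  obtain ⟨f⟩ := hemb
  set c : Fin J → Fin n := fun j => (f (Sum.inl j)).1 with hc
  set c' : Fin J → Fin n := fun j => (f (Sum.inr j)).1 with hc'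
  have hcR : ∀ j, c j ∈ R := fun j => (f (Sum.inl j)).2
  have hcR' : ∀ j, c' j ∈ R := fun j => (f (Sum.inr j)).2
  have hcinj : Function.Injective c := fun j j' h =>
    Sum.inl_injective (f.injective (Subtype.ext h))
  have hcinj' : Function.Injective c' := fun j j' h =>
    Sum.inr_injective (f.injective (Subtype.ext h))
  have hcc' : ∀ j j', c j ≠ c' j' := fun j j' h => by
    have := f.injective (Subtype.ext h)
    exact Sum.inl_ne_inr this
  have hdis : ∀ t ∈ R, Disjoint ({t} : Finset (Fin n)) (I ∪ I') := by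
    intro t htR
    rw [Finset.disjoint_singleton_left]
    exact (Finset.mem_sdiff.1 htR).2
  refine ⟨fun j => x ∆ {c j}, fun j => y ∆ {c' j}, fun a ha b hb => ?_⟩
  have hcardB : ∀ j j', (bn I I' (x ∆ {a}) (y ∆ {b}) (x ∆ {c j}) ∆
      bn I I' (x ∆ {a}) (y ∆ {b}) (y ∆ {c' j'})).card = R.card - 2 := by
    intro j j'
    rw [e3 x y _ _ I I' _ _ (hdis _ (hcR j)) (hdis _ (hcR' j')), ← hR]
    have h1 : R ∆ (({c j} : Finset (Fin n)) ∆ {c' j'}) = R \ {c j, c' j'} := by
      ext t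
      have h2 : t = c j → t ∈ R := fun h => h ▸ hcR j
      have h3 : t = c' j' → t ∈ R := fun h => h ▸ hcR' j'
      have h4 : t = c j → t ≠ c' j' := fun h => h ▸ hcc' j j'
      simp only [Finset.mem_symmDiff, Finset.mem_sdiff, Finset.mem_insert, Finset.mem_singleton]
      tauto
    rw [h1, Finset.card_sdiff_of_subset, Finset.card_pair (hcc' j j')]
    intro t ht'
    rw [Finset.mem_insert, Finset.mem_singleton] at ht'
    rcases ht' with h | h
    · exact h ▸ hcR j
    · exact h ▸ hcR' j'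
  have hcardA : ∀ j, ((x ∆ {a}) ∆ bn I I' (x ∆ {a}) (y ∆ {b}) (x ∆ {c j})).card = M := by
    intro j
    rw [e1 x y I I' _ hd (hdis _ (hcR j)) a b ha hb]
    have h1 : ((x ∆ y) ∆ {b}) ∩ I' = I'.erase b := by
      ext t
      have h2 : t ∈ I' → t ∈ x ∆ y := fun h => hsub.2 h
      rw [Finset.mem_inter, Finset.mem_symmDiff (s := x ∆ y), Finset.mem_singleton,
        Finset.mem_erase]
      tauto
    rw [h1, Finset.card_union_of_disjoint, Finset.card_erase_of_mem hb, Finset.card_singleton, hI']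
    · omega
    · rw [Finset.disjoint_singleton_right]
      intro h2
      have h3 := (Finset.mem_sdiff.1 (hcR j)).2
      exact h3 (Finset.mem_union_right _ (Finset.mem_of_mem_erase h2))
  have hcardC : ∀ j, (bn I I' (x ∆ {a}) (y ∆ {b}) (y ∆ {c' j}) ∆ (y ∆ {b})).card = M := by
    intro j
    rw [e2 x y I I' _ hd (hdis _ (hcR' j)) a b ha hb]
    have h1 : ((x ∆ y) ∆ {a}) ∩ I = I.erase a := by
      ext t
      have h2 : t ∈ I → t ∈ x ∆ y := fun h => hsub.1 h
      rw [Finset.mem_inter, Finset.mem_symmDiff (s := x ∆ y), Finset.mem_singleton,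
        Finset.mem_erase]
      tauto
    rw [h1, Finset.card_union_of_disjoint, Finset.card_erase_of_mem ha, Finset.card_singleton, hI]
    · omega
    · rw [Finset.disjoint_singleton_right]
      intro h2
      have h3 := (Finset.mem_sdiff.1 (hcR' j)).2
      exact h3 (Finset.mem_union_left _ (Finset.mem_of_mem_erase h2))
  refine ⟨fun j j' h => ?_, fun j j' h => ?_, fun j j' h => ?_, fun j => ?_⟩
  · have := inj1 x y I I' _ _ hd (hdis _ (hcR j)) (hdis _ (hcR j')) a b ha hb h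
    exact hcinj (Finset.singleton_injective this)
  · have := inj2 x y I I' _ _ hd (hdis _ (hcR' j)) (hdis _ (hcR' j')) a b ha hb h
    exact hcinj' (Finset.singleton_injective this)
  · have h1 := hcardB j j'
    simp only at h
    rw [h, symmDiff_self, Finset.bot_eq_empty, Finset.card_empty] at h1
    omega
  · simp only
    rw [hcardA, hcardB, hcardC]
    refine ⟨by omega, by omega, by omega, ?_⟩
    exact le_max_of_le_left (by omega)

theorem case2 : S_case2 := by
  intro δ m J k₀ hδ0 hδ1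
  obtain ⟨n₀, hn₀⟩ := exn0 δ hδ0 (k₀ + J + m + 3)
  refine ⟨n₀, fun n hn x y I I' hAdm hD => ?_⟩
  have ht := hn₀ n hn
  set M := ⌊δ * n / 16⌋₊ with hM
  obtain ⟨hI, hI', hd, hcase⟩ := hAdm
  rw [← hM] at hI hI'
  have hn0 : (0 : ℝ) ≤ n := Nat.cast_nonneg n
  have hMle : (M : ℝ) ≤ δ * n / 16 := Nat.floor_le (by positivity)
  have hMge : k₀ + J + m + 3 ≤ M := Nat.le_floor ht
  have hDsmall : (x ∆ y).card + 6 * M + 2 * m ≤ n := by
    have h1 : (((x ∆ y).card + 6 * M + 2 * m : ℕ) : ℝ) ≤ (n : ℝ) := by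
      push_cast at ht ⊢
      have h4 : (0 : ℝ) ≤ k₀ := Nat.cast_nonneg k₀
      have h5 : (0 : ℝ) ≤ J := Nat.cast_nonneg J
      nlinarith
    exact_mod_cast h1
  set E := ((x ∆ y) ∪ (I ∪ I'))ᶜ with hE
  have hEcard : 2 * M ≤ E.card := by
    have h1 : ((x ∆ y) ∪ (I ∪ I')).card ≤ (x ∆ y).card + 2 * M := by
      refine (Finset.card_union_le _ _).trans ?_
      have h2 := Finset.card_union_le I I'
      rw [hI, hI'] at h2
      omega
    rw [hE, Finset.card_compl, Fintype.card_fin]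
    omega
  obtain ⟨W, hWE, hW⟩ := Finset.exists_subset_card_eq (s := E) (n := M) (by omega)
  obtain ⟨W', hWE', hW'⟩ := Finset.exists_subset_card_eq (s := E \ W) (n := M) (by
    rw [Finset.card_sdiff_of_subset hWE, hW]
    omega)
  have hWW' : Disjoint W W' := by
    rw [Finset.disjoint_right]
    intro t ht'
    exact (Finset.mem_sdiff.1 (hWE' ht')).2
  have hWE'' : W' ⊆ E := fun t ht' => (Finset.mem_sdiff.1 (hWE' ht')).1
  have hEd : ∀ t ∈ E, t ∉ x ∆ y ∧ t ∉ I ∪ I' := by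
    intro t ht'
    rw [hE, Finset.mem_compl, Finset.mem_union, not_or] at ht'
    exact ht'
  have hemb : Nonempty (Fin J ↪ {t // t ∈ W}) := by
    refine Function.Embedding.nonempty_of_card_le ?_
    rw [Fintype.card_fin, Fintype.card_coe]
    omega
  have hemb' : Nonempty (Fin J ↪ {t // t ∈ W'}) := by
    refine Function.Embedding.nonempty_of_card_le ?_
    rw [Fintype.card_fin, Fintype.card_coe]
    omega
  obtain ⟨f⟩ := hemb
  obtain ⟨f'⟩ := hemb'
  set A : Fin J → Finset (Fin n) := fun j => W.erase (f j).1 with hA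
  set B : Fin J → Finset (Fin n) := fun j => W'.erase (f' j).1 with hB
  have hAc : ∀ j, (A j).card = M - 1 := fun j => by
    rw [hA]
    simp only
    rw [Finset.card_erase_of_mem (f j).2, hW]
  have hBc : ∀ j, (B j).card = M - 1 := fun j => by
    rw [hB]
    simp only
    rw [Finset.card_erase_of_mem (f' j).2, hW']
  have hAW : ∀ j, A j ⊆ W := fun j => Finset.erase_subset _ _
  have hBW : ∀ j, B j ⊆ W' := fun j => Finset.erase_subset _ _
  have hAinj : Function.Injective A := by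
    intro j j' h
    apply f.injective
    apply Subtype.ext
    by_contra hne
    have h1 : (f j).1 ∈ A j' := Finset.mem_erase.2 ⟨hne, (f j).2⟩
    rw [← h] at h1
    exact (Finset.mem_erase.1 h1).1 rfl
  have hBinj : Function.Injective B := by
    intro j j' h
    apply f'.injective
    apply Subtype.ext
    by_contra hne
    have h1 : (f' j).1 ∈ B j' := Finset.mem_erase.2 ⟨hne, (f' j).2⟩
    rw [← h] at h1
    exact (Finset.mem_erase.1 h1).1 rfl
  have hAd : ∀ j, Disjoint (A j) (I ∪ I') := by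
    intro j
    rw [Finset.disjoint_left]
    intro t ht'
    exact (hEd t (hWE (hAW j ht'))).2
  have hBd : ∀ j, Disjoint (B j) (I ∪ I') := by
    intro j
    rw [Finset.disjoint_left]
    intro t ht'
    exact (hEd t (hWE'' (hBW j ht'))).2
  refine ⟨fun j => x ∆ A j, fun j => y ∆ B j, fun a ha b hb => ?_⟩
  set R := (x ∆ y) \ (I ∪ I') with hR
  have hcardB : ∀ j j', (bn I I' (x ∆ {a}) (y ∆ {b}) (x ∆ A j) ∆
      bn I I' (x ∆ {a}) (y ∆ {b}) (y ∆ B j')).card = R.card + ((M - 1) + (M - 1)) := by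
    intro j j'
    rw [e3 x y _ _ I I' _ _ (hAd j) (hBd j'), ← hR]
    have h1 : Disjoint (A j) (B j') :=
      Finset.disjoint_of_subset_left (hAW j) (Finset.disjoint_of_subset_right (hBW j') hWW')
    have h2 : Disjoint R (A j ∪ B j') := by
      rw [Finset.disjoint_right]
      intro t ht' hRt
      have h3 : t ∈ E := by
        rcases Finset.mem_union.1 ht' with h | h
        · exact hWE (hAW j h)
        · exact hWE'' (hBW j' h)
      exact (hEd t h3).1 (Finset.mem_sdiff.1 hRt).1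
    rw [Disjoint.symmDiff_eq_sup h1, Finset.sup_eq_union, Disjoint.symmDiff_eq_sup h2,
      Finset.sup_eq_union, Finset.card_union_of_disjoint h2, Finset.card_union_of_disjoint h1,
      hAc, hBc]
  have hcardA : ∀ j, M - 1 ≤ ((x ∆ {a}) ∆ bn I I' (x ∆ {a}) (y ∆ {b}) (x ∆ A j)).card ∧
      ((x ∆ {a}) ∆ bn I I' (x ∆ {a}) (y ∆ {b}) (x ∆ A j)).card ≤ M + (M - 1) := by
    intro j
    rw [e1 x y I I' _ hd (hAd j) a b ha hb]
    constructor
    · rw [← hAc j]
      exact Finset.card_le_card Finset.subset_union_right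
    · refine (Finset.card_union_le _ _).trans ?_
      rw [hAc j]
      have := Finset.card_le_card (Finset.inter_subset_right (s₁ := (x ∆ y) ∆ {b}) (s₂ := I'))
      omega
  have hcardC : ∀ j, M - 1 ≤ (bn I I' (x ∆ {a}) (y ∆ {b}) (y ∆ B j) ∆ (y ∆ {b})).card ∧
      (bn I I' (x ∆ {a}) (y ∆ {b}) (y ∆ B j) ∆ (y ∆ {b})).card ≤ M + (M - 1) := by
    intro j
    rw [e2 x y I I' _ hd (hBd j) a b ha hb]
    constructor
    · rw [← hBc j]
      exact Finset.card_le_card Finset.subset_union_right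
    · refine (Finset.card_union_le _ _).trans ?_
      rw [hBc j]
      have := Finset.card_le_card (Finset.inter_subset_right (s₁ := (x ∆ y) ∆ {a}) (s₂ := I))
      omega
  have hRle : R.card ≤ (x ∆ y).card := Finset.card_le_card Finset.sdiff_subset
  refine ⟨fun j j' h => ?_, fun j j' h => ?_, fun j j' h => ?_, fun j => ?_⟩
  · exact hAinj (inj1 x y I I' _ _ hd (hAd j) (hAd j') a b ha hb h)
  · exact hBinj (inj2 x y I I' _ _ hd (hBd j) (hBd j') a b ha hb h)
  · have h1 := hcardB j j'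
    simp only at h
    rw [h, symmDiff_self, Finset.bot_eq_empty, Finset.card_empty] at h1
    omega
  · simp only
    have h1 := hcardA j
    have h2 := hcardC j
    rw [hcardB]
    refine ⟨by omega, by omega, by omega, ?_⟩
    exact le_max_of_le_right (by omega)

end Pool.Agent.Q166.DC.Cases
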