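import Pool.Agent.Q157.DC.Stm

/-!
# Project DC, job const
-/

set_option autoImplicit false

open Finset Filter Topology

namespace Pool.Agent.Q166.DC.Const

open Pool.Agent.Q157.DC

theorem const : S_const := by
  intro p hp0 hp1
  have h1p : (0 : ℝ) < 1 - p := by linarith
  have hb : (1 : ℝ) < 2 := by norm_num
  set L : ℝ := - Real.logb 2 (1 - p) with hL
  have hL0 : 0 < L := by
    rw [hL, neg_pos]
    exact Real.logb_neg hb h1p (by linarith)
  have hL1 : L < 1 := by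
    have h2 : Real.logb 2 (1 / 2) < Real.logb 2 (1 - p) :=
      Real.logb_lt_logb hb (by norm_num) (by linarith)
    have h3 : Real.logb 2 (1 / 2) = -1 := by
      rw [one_div, Real.logb_inv, Real.logb_self_eq_one hb]
    rw [h3] at h2
    rw [hL]
    linarith
  have hpow : ∀ m : ℕ, (1 - p) ^ m = (2 : ℝ) ^ (-(m * L)) := by
    intro m
    have h4 : (2 : ℝ) ^ (Real.logb 2 (1 - p)) = 1 - p :=
      Real.rpow_logb (by norm_num) (by norm_num) h1p
    calc (1 - p) ^ m = ((2 : ℝ) ^ (Real.logb 2 (1 - p))) ^ m := by rw [h4]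
      _ = (2 : ℝ) ^ (Real.logb 2 (1 - p) * m) := (Real.rpow_mul_natCast (by norm_num) _ _).symm
      _ = _ := by
          congr 1
          rw [hL]
          ring
  have hmp : mp p = ⌊1 / L⌋₊ := by
    unfold mp
    congr 1
    rw [hL]
    have h5 : Real.logb 2 (1 - p) ≠ 0 := by
      intro h6
      rw [hL, h6, neg_zero] at hL0
      exact lt_irrefl _ hL0
    field_simp
  have hm1 : 1 ≤ mp p := by
    rw [hmp]
    refine Nat.le_floor ?_
    rw [Nat.cast_one, le_div_iff₀ hL0]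
    linarith
  have hmle : (mp p : ℝ) * L ≤ 1 := by
    have h6 : (mp p : ℝ) ≤ 1 / L := by
      rw [hmp]
      exact Nat.floor_le (by positivity)
    rwa [le_div_iff₀ hL0] at h6
  have hmlt : 1 < ((mp p + 1 : ℕ) : ℝ) * L := by
    have h6 : 1 / L < (mp p : ℝ) + 1 := by
      rw [hmp]
      exact Nat.lt_floor_add_one _
    rw [div_lt_iff₀ hL0] at h6
    push_cast
    exact h6
  have hhalf : (2 : ℝ) ^ (-1 : ℝ) = 1 / 2 := by
    rw [Real.rpow_neg_one]
    norm_num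
  have hge : 1 / 2 ≤ (1 - p) ^ (mp p) := by
    rw [hpow, ← hhalf]
    exact Real.rpow_le_rpow_of_exponent_le (by norm_num) (by linarith)
  have hlt : (1 - p) ^ (mp p + 1) < 1 / 2 := by
    rw [hpow, ← hhalf]
    exact Real.rpow_lt_rpow_of_exponent_lt (by norm_num) (by linarith)
  refine ⟨hm1, hge, ?_⟩
  -- choose rho
  have hc1 : ContinuousAt (fun ρ : ℝ => 2 * ρ ^ (mp p + 1)) (1 - p) := by fun_prop
  have he1 : ∀ᶠ ρ in 𝓝 (1 - p), 2 * ρ ^ (mp p + 1) < 1 :=
    hc1.eventually_lt continuousAt_const (by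
      linarith)
  obtain ⟨ε, hε, hball⟩ := Metric.eventually_nhds_iff.1 he1
  set ρ : ℝ := (1 - p) + ε / 2 with hρ
  have hρ1 : 2 * ρ ^ (mp p + 1) < 1 := by
    refine hball ?_
    rw [Real.dist_eq, hρ]
    have e : (1 - p) + ε / 2 - (1 - p) = ε / 2 := by ring
    rw [e, abs_of_pos (by linarith)]
    linarith
  set θ : ℝ := min 1 (ε / 4 / p) with hθ
  have hθ0 : 0 < θ := lt_min one_pos (by positivity)
  have hθ1 : θ ≤ 1 := min_le_left _ _
  have hpθ : p * θ ≤ ε / 4 := by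
    have h7 : θ ≤ ε / 4 / p := min_le_right _ _
    rw [le_div_iff₀ hp0] at h7
    linarith
  have hκ : 1 - p + p * θ < ρ := by
    rw [hρ]
    linarith
  have hc2 : ContinuousAt (fun δ : ℝ => θ ^ (-δ) * (1 - p + p * θ)) 0 := by
    refine ContinuousAt.mul ?_ continuousAt_const
    refine ContinuousAt.rpow continuousAt_const continuousAt_neg (Or.inl hθ0.ne')
  have he2 : ∀ᶠ δ in 𝓝 (0 : ℝ), θ ^ (-δ) * (1 - p + p * θ) < ρ := by
    refine hc2.eventually_lt continuousAt_const ?_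
    simp only [neg_zero, Real.rpow_zero, one_mul]
    exact hκ
  obtain ⟨ε', hε', hball'⟩ := Metric.eventually_nhds_iff.1 he2
  refine ⟨θ, min (1 / 2) (ε' / 2), ρ, hθ0, hθ1, lt_min (by norm_num) (by linarith),
    min_le_left _ _, by rw [hρ]; linarith, hρ1, ?_⟩
  refine (hball' ?_).le
  rw [Real.dist_eq, sub_zero, abs_of_pos (lt_min (by norm_num) (by linarith))]
  exact (min_le_right _ _).trans_lt (by linarith)

theorem poorBound (h1 : S_poor) (h2 : S_const) : S_poorBound := by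
  intro pv pe hv0 hv1 he0 he1 hp
  have hp0 : 0 < pv * pe := mul_pos hv0 he0
  obtain ⟨-, -, θ, δ, ρ, hθ0, hθ1, hδ0, hδ1, hρ0, hρ1, hρ2⟩ := h2 (pv * pe) hp0 hp
  set κ : ℝ := 1 - pv * pe + pv * pe * θ with hκ
  have hκ0 : 0 < κ := by
    rw [hκ]
    have : 0 < pv * pe * θ := mul_pos hp0 hθ0
    linarith
  have hκ1 : κ ≤ 1 := by
    rw [hκ]
    have : pv * pe * θ ≤ pv * pe * 1 := mul_le_mul_of_nonneg_left hθ1 hp0.le
    linarith
  set m := mp (pv * pe) with hm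
  refine ⟨δ, ρ, (1 / κ) ^ (2 * (m + 1) ^ 2), hδ0, hδ1, hρ0, by positivity, hρ1, ?_⟩
  intro n S hS
  have h3 := h1 pv pe hv0 hv1 he0 he1 n θ (δ * n) hθ0 hθ1 (by positivity) S
  rw [← hκ, hS] at h3
  have h4 : Pr (rt pv pe n) (fun ω => ∀ v ∈ S, poor δ ω v) ≤
      (θ ^ (-(δ * n))) ^ (m + 1) * κ ^ ((m + 1) * (n - 2 * (m + 1))) := h3
  refine h4.trans ?_
  have h5 : κ ^ ((m + 1) * (n - 2 * (m + 1))) ≤
      (1 / κ) ^ (2 * (m + 1) ^ 2) * κ ^ ((m + 1) * n) := by
    have h6 : (m + 1) * n ≤ (m + 1) * (n - 2 * (m + 1)) + 2 * (m + 1) ^ 2 := by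
      have : n ≤ (n - 2 * (m + 1)) + 2 * (m + 1) := by omega
      calc (m + 1) * n ≤ (m + 1) * ((n - 2 * (m + 1)) + 2 * (m + 1)) :=
            Nat.mul_le_mul_left _ this
        _ = _ := by ring
    have h7 := pow_le_pow_of_le_one hκ0.le hκ1 h6
    rw [pow_add] at h7
    rw [one_div, inv_pow, ← div_eq_inv_mul, le_div_iff₀ (by positivity)]
    exact h7
  have h8 : (θ ^ (-(δ * n))) ^ (m + 1) = (θ ^ (-δ)) ^ ((m + 1) * n) := by
    rw [← Real.rpow_mul_natCast hθ0.le, ← Real.rpow_mul_natCast hθ0.le]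
    congr 1
    push_cast
    ring
  calc (θ ^ (-(δ * n))) ^ (m + 1) * κ ^ ((m + 1) * (n - 2 * (m + 1)))
      ≤ (θ ^ (-(δ * n))) ^ (m + 1) * ((1 / κ) ^ (2 * (m + 1) ^ 2) * κ ^ ((m + 1) * n)) :=
        mul_le_mul_of_nonneg_left h5 (by positivity)
    _ = (1 / κ) ^ (2 * (m + 1) ^ 2) * (θ ^ (-δ) * κ) ^ ((m + 1) * n) := by
        rw [h8, mul_pow]
        ring
    _ ≤ (1 / κ) ^ (2 * (m + 1) ^ 2) * ρ ^ ((m + 1) * n) := by
        refine mul_le_mul_of_nonneg_left ?_ (by positivity)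
        exact pow_le_pow_left₀ (by positivity) hρ2 _

end Pool.Agent.Q166.DC.Const
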