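import Pool.Agent.Q157.DC.Stm

/-!
# Project DC, jobs easame, eadist
-/

set_option autoImplicit false

open Finset Filter Topology
open scoped symmDiff

namespace Pool.Agent.Q166.DC.Ea

open Pool.Agent.Q157.DC

theorem nb_comm {n : ℕ} {u v : Vx n} (h : nb u v) : nb v u := by
  unfold nb at *
  rwa [symmDiff_comm]

theorem opn_comm {n : ℕ} {ω : Om n} {u v : Vx n} (h : opn ω u v) : opn ω v u := by
  unfold opn at *
  rwa [Sym2.eq_swap]

theorem nbr {n m : ℕ} {ω : Om n} {α : Vx n × (Fin m ↪ Fin n)} (h : EA ω α) {l : ℕ} (hl : l < m)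
    {v : Vx n} (h1 : nb (ypt α.1 α.2 l) v) (h2 : pres ω v) (h3 : opn ω (ypt α.1 α.2 l) v) :
    v = ypt α.1 α.2 (l + 1) ∨ ∃ l', l' + 1 = l ∧ v = ypt α.1 α.2 l' := by
  by_contra hc
  push Not at hc
  exact h.2.2.1 l hl v h1 hc.1 (fun l' hl' => hc.2 l' hl') ⟨h2, h3⟩

theorem nb_succ (hy : S_ypt) {n m : ℕ} (y : Vx n) (i : Fin m ↪ Fin n) {l : ℕ} (hl : l < m) :
    nb (ypt y i l) (ypt y i (l + 1)) := by
  unfold nb
  rw [(hy n m y i).2.1 l (l + 1) (by omega) (by omega)]
  omega

theorem ea_same (h : S_ypt) : S_EA_same := by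
  intro n m hm ω α α' hE hE' hi hi'
  obtain ⟨y, i⟩ := α
  obtain ⟨y', i'⟩ := α'
  simp only at hi hi'
  have hinj := (h n m y i).2.2.1
  have hinj' := (h n m y' i').2.2.1
  -- the last vertices
  have hlast : ypt y i m = ypt y' i' m ∧ ypt y i (m - 1) = ypt y' i' (m - 1) := by
    obtain ⟨l', hl', he⟩ := hi (m - 1) (by omega)
    have h1 : nb (ypt y' i' l') (ypt y i m) := by
      rw [← he]
      have := nb_succ h y i (show m - 1 < m by omega)
      rwa [show m - 1 + 1 = m by omega] at this
    have h2 : pres ω (ypt y i m) := hE.1 m le_rfl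
    have h3 : opn ω (ypt y' i' l') (ypt y i m) := by
      rw [← he]
      have := hE.2.1 (m - 1) (by omega)
      simp only at this
      rwa [show m - 1 + 1 = m by omega] at this
    have hnot : ∀ j < m, ypt y i m ≠ ypt y' i' j := by
      intro j hj he2
      obtain ⟨j', hj', he3⟩ := hi' j hj
      rw [he3] at he2
      have := hinj m j' le_rfl hj'.le he2
      omega
    rcases nbr (α := (y', i')) hE' hl' h1 h2 h3 with h4 | ⟨j, hj, h4⟩
    · by_cases h5 : l' + 1 < m
      · exact absurd h4 (hnot _ h5)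
      · have h6 : l' + 1 = m := by omega
        rw [h6] at h4
        refine ⟨h4, ?_⟩
        have h7 : l' = m - 1 := by omega
        rw [h7] at he
        exact he
    · exact absurd h4 (hnot j (by omega))
  have hdesc : ∀ k, k < m → ypt y i (m - k) = ypt y' i' (m - k) ∧
      ypt y i (m - 1 - k) = ypt y' i' (m - 1 - k) := by
    intro k
    induction k with
    | zero => intro _; exact hlast
    | succ k ih =>
      intro hk
      obtain ⟨e1, e2⟩ := ih (by omega)
      set j := m - 1 - (k + 1) with hj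
      have hj1 : m - 1 - k = j + 1 := by omega
      have hj2 : m - k = j + 2 := by omega
      have hj3 : m - (k + 1) = j + 1 := by omega
      rw [hj1] at e2
      rw [hj2] at e1
      rw [hj3]
      refine ⟨e2, ?_⟩
      have h1 : nb (ypt y' i' (j + 1)) (ypt y i j) := by
        rw [← e2]
        exact nb_comm (nb_succ h y i (by omega))
      have h2 : pres ω (ypt y i j) := hE.1 j (by omega)
      have h3 : opn ω (ypt y' i' (j + 1)) (ypt y i j) := by
        rw [← e2]
        exact opn_comm (hE.2.1 j (by omega))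
      rcases nbr (α := (y', i')) hE' (show j + 1 < m by omega) h1 h2 h3 with h4 | ⟨j', hj', h4⟩
      · exfalso
        simp only at h4
        rw [show j + 1 + 1 = j + 2 by omega, ← e1] at h4
        have := hinj j (j + 2) (by omega) (by omega) h4
        omega
      · have : j' = j := by omega
        rw [this] at h4
        exact h4
  have hall : ∀ l ≤ m, ypt y i l = ypt y' i' l := by
    intro l hl
    rcases Nat.eq_zero_or_pos l with h0 | h0
    · subst h0
      have := (hdesc (m - 1) (by omega)).2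
      rwa [show m - 1 - (m - 1) = 0 by omega] at this
    · have := (hdesc (m - l) (by omega)).1
      rwa [show m - (m - l) = l by omega] at this
  have hy0 := hall 0 (Nat.zero_le _)
  rw [(h n m y i).1, (h n m y' i').1] at hy0
  subst hy0
  have := (h n m y i).2.2.2 i' hall
  subst this
  rfl

theorem ea_dist (h : S_ypt) : S_EA_dist := by
  intro n m hmn ω α hE
  classical
  obtain ⟨y, i⟩ := α
  simp only
  have hinj := (h n m y i).2.2.1
  have hadj : ∀ l < m, (hG ω).Adj (ypt y i l) (ypt y i (l + 1)) := fun l hl =>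
    ⟨nb_succ h y i hl, hE.1 l hl.le, hE.1 (l + 1) hl, hE.2.1 l hl⟩
  have hwalk : ∀ l ≤ m, ∃ w : (hG ω).Walk (ypt y i 0) (ypt y i l), w.length = l := by
    intro l
    induction l with
    | zero => intro _; exact ⟨SimpleGraph.Walk.nil, rfl⟩
    | succ l ih =>
      intro hl
      obtain ⟨w, hw⟩ := ih (by omega)
      refine ⟨w.concat (hadj l (by omega)), ?_⟩
      rw [SimpleGraph.Walk.length_concat, hw]
  obtain ⟨w, hw⟩ := hwalk m le_rfl
  refine ⟨⟨w⟩, (SimpleGraph.dist_le w).trans hw.le, ?_⟩
  intro hreach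
  let φ : Vx n → ℕ := fun v =>
    if hv : ∃ l < m, v = ypt y i l then Nat.find hv else m + (v ∆ ypt y i m).card
  have hφin : ∀ l < m, φ (ypt y i l) = l := by
    intro l hl
    have hex : ∃ l' < m, ypt y i l = ypt y i l' := ⟨l, hl, rfl⟩
    change (if hv : ∃ l' < m, ypt y i l = ypt y i l' then Nat.find hv else _) = l
    rw [dif_pos hex]
    have h2 := Nat.find_spec hex
    exact (hinj _ _ hl.le h2.1.le h2.2).symm
  have hφout : ∀ v, (¬ ∃ l < m, v = ypt y i l) → φ v = m + (v ∆ ypt y i m).card := by
    intro v hv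
    change (if hv : ∃ l' < m, v = ypt y i l' then Nat.find hv else _) = _
    rw [dif_neg hv]
  have hφm : φ (ypt y i m) = m := by
    rw [hφout]
    · rw [symmDiff_self, Finset.bot_eq_empty, Finset.card_empty, add_zero]
    · rintro ⟨l, hl, he⟩
      have := hinj m l le_rfl hl.le he
      omega
  have hφle : ∀ l ≤ m, φ (ypt y i l) = l := by
    intro l hl
    rcases hl.eq_or_lt with h0 | h0
    · rw [h0, hφm]
    · exact hφin l h0
  have hstep : ∀ u v, (hG ω).Adj u v → φ v ≤ φ u + 1 := by
    intro u v huv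
    obtain ⟨h1, h2, h3, h4⟩ := huv
    by_cases hu : ∃ l < m, u = ypt y i l
    · obtain ⟨l, hl, rfl⟩ := hu
      rw [hφin l hl]
      rcases nbr (α := (y, i)) hE hl h1 h3 h4 with h5 | ⟨l', hl', h5⟩
      · rw [h5]
        simp only
        rw [hφle (l + 1) hl]
      · rw [h5]
        simp only
        rw [hφle l' (by omega)]
        omega
    · rw [hφout u hu]
      by_cases hv : ∃ l < m, v = ypt y i l
      · obtain ⟨l, hl, rfl⟩ := hv
        rw [hφin l hl]
        omega
      · rw [hφout v hv]
        have h5 : (v ∆ ypt y i m).card ≤ (v ∆ u).card + (u ∆ ypt y i m).card := by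
          have h6 : v ∆ ypt y i m ⊆ (v ∆ u) ∪ (u ∆ ypt y i m) := symmDiff_triangle v u (ypt y i m)
          exact (Finset.card_le_card h6).trans (Finset.card_union_le _ _)
        have h7 : (v ∆ u).card = 1 := nb_comm h1
        omega
  have hw2 : ∀ (u v : Vx n) (w : (hG ω).Walk u v), φ v ≤ φ u + w.length := by
    intro u v w
    induction w with
    | nil => simp
    | cons hadj' p ih =>
      have h8 := hstep _ _ hadj'
      rw [SimpleGraph.Walk.length_cons]
      omega
  obtain ⟨w', hw'⟩ := hreach.exists_walk_length_eq_dist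
  have h9 := hw2 _ _ w'
  have h10 : φ (ypt y i 0) = 0 := hφle 0 (Nat.zero_le _)
  have h11 : φ (ypt y i m)ᶜ = m + n := by
    have hc : (ypt y i m)ᶜ ∆ ypt y i m = univ := by
      ext a
      simp only [Finset.mem_symmDiff, Finset.mem_compl, Finset.mem_univ, iff_true]
      tauto
    rw [hφout, hc, Finset.card_univ, Fintype.card_fin]
    rintro ⟨l, hl, he⟩
    have h12 := (h n m y i).2.1 l m hl.le le_rfl
    rw [← he, hc, Finset.card_univ, Fintype.card_fin] at h12
    omega
  omega

end Pool.Agent.Q166.DC.Ea
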