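import Pool.Agent.Q157.DC.Stm

/-!
# Project DC, job ealow
-/

set_option autoImplicit false

open Finset Filter Topology
open scoped symmDiff

namespace Pool.Agent.Q166.DC.EaLow

open Pool.Agent.Q157.DC

theorem nb_exists {n : ℕ} {u v : Vx n} (h : nb u v) : ∃ c : Fin n, v = u ∆ {c} := by
  obtain ⟨c, hc⟩ := Finset.card_eq_one.1 h
  refine ⟨c, ?_⟩
  rw [← hc, symmDiff_symmDiff_cancel_left]

theorem ea_low (h1 : S_basic) (h2 : S_cyl) (h3 : S_pr_and) (h4 : S_fkg) (h5 : S_ypt) :
    S_EA_low := by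
  intro pv pe hv0 hv1 he0 he1 n m hmn α
  classical
  set r := rt pv pe n with hr
  have hrt : ∀ i, 0 ≤ r i ∧ r i ≤ 1 := by
    intro i
    rcases i with i | i
    · exact ⟨hv0.le, hv1⟩
    · exact ⟨he0.le, he1⟩
  obtain ⟨-, -, hb, hmono, hcompl, -, -, -⟩ := h1 r hrt
  set yy : ℕ → Vx n := fun l => ypt α.1 α.2 l with hyy
  have hdist : ∀ l l', l ≤ l' → l' ≤ m → (yy l ∆ yy l').card = l' - l := (h5 n m α.1 α.2).2.1
  set T1 : Finset (Ix n) := (range (m + 1)).image (fun l => Sum.inl (yy l)) ∪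
    {Sum.inl (yy m)ᶜ} with hT1
  set T2 : Finset (Ix n) := (range m).image (fun l => Sum.inr s(yy l, yy (l + 1))) with hT2
  let T : Finset (Ix n) := T1 ∪ T2
  have hT1l : ∀ i ∈ T1, r i = pv := by
    intro i hi
    rw [hT1, Finset.mem_union, Finset.mem_image, Finset.mem_singleton] at hi
    rcases hi with ⟨l, -, rfl⟩ | rfl <;> rfl
  have hT2l : ∀ i ∈ T2, r i = pe := by
    intro i hi
    rw [hT2, Finset.mem_image] at hi
    obtain ⟨l, -, rfl⟩ := hi
    rfl
  have hdisj : Disjoint T1 T2 := by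
    rw [Finset.disjoint_left]
    intro i hi hi'
    rw [hT1, Finset.mem_union, Finset.mem_image, Finset.mem_singleton] at hi
    rw [hT2, Finset.mem_image] at hi'
    obtain ⟨l', -, rfl⟩ := hi'
    rcases hi with ⟨l, -, h⟩ | h
    · exact absurd h (by simp)
    · exact absurd h (by simp)
  have hT1c : T1.card ≤ m + 2 := by
    refine (Finset.card_union_le _ _).trans ?_
    have := Finset.card_image_le (s := range (m + 1)) (f := fun l => (Sum.inl (yy l) : Ix n))
    rw [Finset.card_range] at this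
    rw [Finset.card_singleton]
    omega
  have hT2c : T2.card ≤ m := by
    refine Finset.card_image_le.trans ?_
    rw [Finset.card_range]
  let E1 : Om n → Prop := fun ω => ∀ i ∈ T, ω i = true
  let E2 : Om n → Prop := fun ω => ∀ l < m, ∀ v, nb (yy l) v → v ≠ yy (l + 1) →
    (∀ l', l' + 1 = l → v ≠ yy l') → ¬ (pres ω v ∧ opn ω (yy l) v)
  have hEA : (fun ω => EA ω α) = fun ω => E1 ω ∧ E2 ω := by
    funext ω
    refine propext ⟨fun h => ⟨?_, h.2.2.1⟩, fun h => ⟨?_, ?_, h.2, ?_⟩⟩
    · intro i hi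
      rcases Finset.mem_union.1 hi with hi | hi
      · rw [hT1, Finset.mem_union, Finset.mem_image, Finset.mem_singleton] at hi
        rcases hi with ⟨l, hl, rfl⟩ | rfl
        · exact h.1 l (by rw [Finset.mem_range] at hl; omega)
        · exact h.2.2.2
      · rw [hT2, Finset.mem_image] at hi
        obtain ⟨l, hl, rfl⟩ := hi
        exact h.2.1 l (Finset.mem_range.1 hl)
    · intro l hl
      refine h.1 (Sum.inl (yy l)) (Finset.mem_union_left _ ?_)
      rw [hT1, Finset.mem_union, Finset.mem_image]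
      exact Or.inl ⟨l, Finset.mem_range.2 (by omega), rfl⟩
    · intro l hl
      refine h.1 (Sum.inr s(yy l, yy (l + 1))) (Finset.mem_union_right _ ?_)
      rw [hT2, Finset.mem_image]
      exact ⟨l, Finset.mem_range.2 hl, rfl⟩
    · refine h.1 (Sum.inl (yy m)ᶜ) (Finset.mem_union_left _ ?_)
      rw [hT1, Finset.mem_union, Finset.mem_singleton]
      exact Or.inr rfl
  have hnotpath : ∀ l < m, ∀ v, nb (yy l) v → v ≠ yy (l + 1) →
      (∀ l', l' + 1 = l → v ≠ yy l') → ∀ j ≤ m, v ≠ yy j := by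
    intro l hl v hv hv1 hv2 j hj he
    unfold nb at hv
    rcases le_total l j with h | h
    · rw [he, hdist l j h hj] at hv
      have : j = l + 1 := by omega
      exact hv1 (this ▸ he)
    · rw [he, symmDiff_comm, hdist j l h hl.le] at hv
      exact hv2 j (by omega) he
  have hnotanti : ∀ l < m, ∀ v, nb (yy l) v → v ≠ (yy m)ᶜ := by
    intro l hl v hv he
    unfold nb at hv
    rw [he] at hv
    have e : yy l ∆ (yy m)ᶜ = (yy l ∆ yy m)ᶜ := by
      ext t
      simp only [Finset.mem_symmDiff, Finset.mem_compl]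
      tauto
    rw [e, Finset.card_compl, Fintype.card_fin, hdist l m hl.le le_rfl] at hv
    omega
  have hnotin : ∀ l < m, ∀ v, nb (yy l) v → v ≠ yy (l + 1) →
      (∀ l', l' + 1 = l → v ≠ yy l') →
      (Sum.inl v : Ix n) ∉ T ∧ (Sum.inr s(yy l, v) : Ix n) ∉ T := by
    intro l hl v hv hv1 hv2
    have hp := hnotpath l hl v hv hv1 hv2
    constructor
    · intro hi
      rcases Finset.mem_union.1 hi with hi | hi
      · rw [hT1, Finset.mem_union, Finset.mem_image, Finset.mem_singleton] at hi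
        rcases hi with ⟨j, hj, he⟩ | he
        · exact hp j (by rw [Finset.mem_range] at hj; omega) (Sum.inl_injective he).symm
        · exact hnotanti l hl v hv (Sum.inl_injective he)
      · rw [hT2, Finset.mem_image] at hi
        obtain ⟨j, -, he⟩ := hi
        exact absurd he (by simp)
    · intro hi
      rcases Finset.mem_union.1 hi with hi | hi
      · rw [hT1, Finset.mem_union, Finset.mem_image, Finset.mem_singleton] at hi
        rcases hi with ⟨j, hj, he⟩ | he
        · exact absurd he (by simp)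
        · exact absurd he (by simp)
      · rw [hT2, Finset.mem_image] at hi
        obtain ⟨j, hj, he⟩ := hi
        rw [Finset.mem_range] at hj
        have he' := Sum.inr_injective he
        rw [Sym2.eq_iff] at he'
        rcases he' with ⟨-, h⟩ | ⟨h, -⟩
        · exact hp (j + 1) hj h.symm
        · exact hp j hj.le h.symm
  have hdep1 : DepOn (T : Set (Ix n)) E1 := by
    intro ω ω' h
    refine propext (forall_congr' fun i => forall_congr' fun hi => ?_)
    rw [h i (Finset.mem_coe.2 hi)]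
  have hdep2 : DepOn ((T : Set (Ix n))ᶜ) E2 := by
    intro ω ω' h
    refine propext (forall_congr' fun l => forall_congr' fun hl => forall_congr' fun v =>
      forall_congr' fun hv => forall_congr' fun hv1 => forall_congr' fun hv2 => ?_)
    obtain ⟨g1, g2⟩ := hnotin l hl v hv hv1 hv2
    have e1 := h (Sum.inl v) (fun h' => g1 (Finset.mem_coe.1 h'))
    have e2 := h (Sum.inr s(yy l, v)) (fun h' => g2 (Finset.mem_coe.1 h'))
    unfold pres opn
    rw [e1, e2]
  have hprod := h3 r (T : Set (Ix n)) ((T : Set (Ix n))ᶜ) E1 E2 disjoint_compl_right hdep1 hdep2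
  have hE1 : pv ^ (m + 2) * pe ^ m ≤ Pr r E1 := by
    have e := h2 r T
    have e' : Pr r E1 = ∏ i ∈ T, r i := e
    rw [e', Finset.prod_union hdisj, Finset.prod_congr rfl hT1l, Finset.prod_congr rfl hT2l,
      Finset.prod_const, Finset.prod_const]
    exact mul_le_mul (pow_le_pow_of_le_one hv0.le hv1 hT1c)
      (pow_le_pow_of_le_one he0.le he1 hT2c) (by positivity) (by positivity)
  have hp1 : pv * pe ≤ 1 := mul_le_one₀ hv1 he0.le he1
  have hE2 : (1 - pv * pe) ^ (m * n) ≤ Pr r E2 := by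
    let A : ℕ × Fin n → Om n → Prop := fun t ω => yy t.1 ∆ {t.2} ≠ yy (t.1 + 1) →
      (∀ l', l' + 1 = t.1 → yy t.1 ∆ {t.2} ≠ yy l') →
        ¬ (pres ω (yy t.1 ∆ {t.2}) ∧ opn ω (yy t.1) (yy t.1 ∆ {t.2}))
    have hf := h4 r hrt ((range m) ×ˢ (univ : Finset (Fin n))) A (by
      intro t _ ω ω' h hA g1 g2 g3
      exact hA g1 g2 ⟨h _ g3.1, h _ g3.2⟩)
    have hA1 : ∀ t : ℕ × Fin n, 1 - pv * pe ≤ Pr r (A t) := by
      intro t
      have g1 : Pr r (fun ω => ¬ (pres ω (yy t.1 ∆ {t.2}) ∧ opn ω (yy t.1) (yy t.1 ∆ {t.2}))) ≤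
          Pr r (A t) := hmono _ _ fun ω h _ _ => h
      rw [hcompl] at g1
      have g2 := h2 r {Sum.inl (yy t.1 ∆ {t.2}), Sum.inr s(yy t.1, yy t.1 ∆ {t.2})}
      rw [Finset.prod_pair (by simp)] at g2
      have g3 : (fun ω : Om n => ∀ i ∈ ({Sum.inl (yy t.1 ∆ {t.2}),
          Sum.inr s(yy t.1, yy t.1 ∆ {t.2})} : Finset (Ix n)), ω i = true) =
          fun ω => pres ω (yy t.1 ∆ {t.2}) ∧ opn ω (yy t.1) (yy t.1 ∆ {t.2}) := by
        funext ω
        refine propext ⟨fun h => ⟨h _ (by simp), h _ (by simp)⟩, fun h i hi => ?_⟩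
        rw [Finset.mem_insert, Finset.mem_singleton] at hi
        rcases hi with rfl | rfl
        · exact h.1
        · exact h.2
      rw [g3] at g2
      rw [g2] at g1
      exact g1
    have hle : (1 - pv * pe) ^ (m * n) ≤
        ∏ t ∈ (range m) ×ˢ (univ : Finset (Fin n)), Pr r (A t) := by
      calc (1 - pv * pe) ^ (m * n)
          = ∏ _t ∈ (range m) ×ˢ (univ : Finset (Fin n)), (1 - pv * pe) := by
            rw [Finset.prod_const, Finset.card_product, Finset.card_range, Finset.card_univ,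
              Fintype.card_fin]
        _ ≤ _ := Finset.prod_le_prod (fun _ _ => by linarith) fun t _ => hA1 t
    refine (hle.trans hf).trans (hmono _ _ fun ω h => ?_)
    intro l hl v hv hv1 hv2
    obtain ⟨c, hc⟩ := nb_exists hv
    have := h (l, c) (Finset.mem_product.2 ⟨Finset.mem_range.2 hl, Finset.mem_univ _⟩)
    rw [hc] at hv1 hv2 ⊢
    exact this hv1 hv2
  rw [hEA, hprod]
  exact mul_le_mul hE1 hE2 (pow_nonneg (by linarith) _) (hb E1).1

end Pool.Agent.Q166.DC.EaLow
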