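import Pool.Agent.Q157.DC.Stm

/-!
# Project DC, job permasym
-/

set_option autoImplicit false

open Finset Filter Topology

namespace Pool.Agent.Q166.DC.PermAsym

open Pool.Agent.Q157.DC

theorem fac_le (s t : ℕ) : (2 + s).factorial * (2 + t).factorial ≤ 2 * (2 + s + t).factorial := by
  induction s with
  | zero => simp [Nat.factorial]
  | succ s ih =>
    have e1 : (2 + (s + 1)).factorial = (3 + s) * (2 + s).factorial := by
      rw [show 2 + (s + 1) = (2 + s) + 1 by omega, Nat.factorial_succ]
      congr 1
      omega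
    have e2 : (2 + (s + 1) + t).factorial = (3 + s + t) * (2 + s + t).factorial := by
      rw [show 2 + (s + 1) + t = (2 + s + t) + 1 by omega, Nat.factorial_succ]
      congr 1
      omega
    rw [e1, e2]
    calc (3 + s) * (2 + s).factorial * (2 + t).factorial
        = (3 + s) * ((2 + s).factorial * (2 + t).factorial) := by ring
      _ ≤ (3 + s + t) * (2 * (2 + s + t).factorial) := Nat.mul_le_mul (by omega) ih
      _ = _ := by ring

theorem sum_fac (k : ℕ) (hk : 1 ≤ k) :
    ∑ l ∈ Finset.Ico 1 k, (l.factorial : ℝ) * ((k - l).factorial : ℝ) ≤ 4 * ((k - 1).factorial : ℝ) := by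
  rcases Nat.lt_or_ge k 2 with h2 | h2
  · have : k = 1 := by omega
    subst this
    simp
  have hterm : ∀ l ∈ Finset.Ico 1 k, (l.factorial : ℝ) * ((k - l).factorial : ℝ) ≤
      (if l = 1 then ((k - 1).factorial : ℝ) else 0) +
        (if l = k - 1 then ((k - 1).factorial : ℝ) else 0) + 2 * ((k - 2).factorial : ℝ) := by
    intro l hl
    rw [Finset.mem_Ico] at hl
    have hp : (0 : ℝ) ≤ 2 * ((k - 2).factorial : ℝ) := by positivity
    have hq : (0 : ℝ) ≤ ((k - 1).factorial : ℝ) := by positivity
    by_cases h1 : l = 1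
    · subst h1
      simp only [Nat.factorial_one, Nat.cast_one, one_mul, if_true]
      have : (0 : ℝ) ≤ (if 1 = k - 1 then ((k - 1).factorial : ℝ) else 0) := by
        split_ifs
        · exact hq
        · exact le_refl _
      linarith
    · by_cases h3 : l = k - 1
      · rw [if_neg h1, if_pos h3, h3]
        have h4 : k - (k - 1) = 1 := by omega
        rw [h4]
        simp only [Nat.factorial_one, Nat.cast_one, mul_one]
        linarith
      · rw [if_neg h1, if_neg h3]
        have h5 := fac_le (l - 2) (k - l - 2)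
        have e1 : 2 + (l - 2) = l := by omega
        have e2 : 2 + (k - l - 2) = k - l := by omega
        have e3 : 2 + (l - 2) + (k - l - 2) = k - 2 := by omega
        rw [e3, e1, e2] at h5
        have h6 : (l.factorial : ℝ) * ((k - l).factorial : ℝ) ≤ 2 * ((k - 2).factorial : ℝ) := by
          exact_mod_cast h5
        linarith
  refine (Finset.sum_le_sum hterm).trans ?_
  rw [Finset.sum_add_distrib, Finset.sum_add_distrib, Finset.sum_ite_eq', Finset.sum_ite_eq',
    Finset.sum_const, Nat.card_Ico, nsmul_eq_mul]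
  have m1 : 1 ∈ Finset.Ico 1 k := by rw [Finset.mem_Ico]; omega
  have m2 : k - 1 ∈ Finset.Ico 1 k := by rw [Finset.mem_Ico]; omega
  rw [if_pos m1, if_pos m2]
  have e4 : ((k - 1).factorial : ℝ) = ((k - 1 : ℕ) : ℝ) * ((k - 2).factorial : ℝ) := by
    have : (k - 1).factorial = (k - 1) * (k - 2).factorial := by
      rw [show k - 1 = (k - 2) + 1 by omega, Nat.factorial_succ]
    exact_mod_cast this
  have e5 : ((k - 1 : ℕ) : ℝ) * (2 * ((k - 2).factorial : ℝ)) = 2 * ((k - 1).factorial : ℝ) := by
    rw [e4]; ring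
  rw [e5]
  linarith

theorem perm_asym : S_perm_asym := by
  intro lam hlam g hg hrec
  set N : ℕ := ⌈8 * lam⌉₊ with hN
  set H : ℝ := 2 + ∑ l ∈ range N, g l / (l.factorial : ℝ) with hH
  have hs : 0 ≤ ∑ l ∈ range N, g l / (l.factorial : ℝ) :=
    Finset.sum_nonneg fun l _ => div_nonneg (hg l) (by positivity)
  have hH2 : 2 ≤ H := by rw [hH]; linarith
  have hH0 : 0 ≤ H := by linarith
  have hkey : ∀ k : ℕ, 1 ≤ k → (∀ l < k, g l ≤ H * (l.factorial : ℝ)) →
      g k ≤ (k.factorial : ℝ) + 4 * lam * H * ((k - 1).factorial : ℝ) := by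
    intro k hk hl
    refine (hrec k).trans ?_
    have h1 : ∑ l ∈ Finset.Ico 1 k, g l * ((k - l).factorial : ℝ) ≤
        H * (4 * ((k - 1).factorial : ℝ)) := by
      calc ∑ l ∈ Finset.Ico 1 k, g l * ((k - l).factorial : ℝ)
          ≤ ∑ l ∈ Finset.Ico 1 k, H * ((l.factorial : ℝ) * ((k - l).factorial : ℝ)) := by
            refine Finset.sum_le_sum fun l hl' => ?_
            rw [Finset.mem_Ico] at hl'
            rw [← mul_assoc]
            exact mul_le_mul_of_nonneg_right (hl l hl'.2) (by positivity)
        _ = H * ∑ l ∈ Finset.Ico 1 k, (l.factorial : ℝ) * ((k - l).factorial : ℝ) := by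
            rw [Finset.mul_sum]
        _ ≤ _ := mul_le_mul_of_nonneg_left (sum_fac k hk) hH0
    have h2 := mul_le_mul_of_nonneg_left h1 (by linarith : (0 : ℝ) ≤ lam)
    have e : lam * (H * (4 * ((k - 1).factorial : ℝ))) = 4 * lam * H * ((k - 1).factorial : ℝ) := by
      ring
    rw [e] at h2
    linarith
  have hfac : ∀ k : ℕ, 1 ≤ k → (k.factorial : ℝ) = k * ((k - 1).factorial : ℝ) := by
    intro k hk
    have : k.factorial = k * (k - 1).factorial := by
      obtain ⟨j, rfl⟩ := Nat.exists_eq_add_of_le' hk
      rw [Nat.factorial_succ, Nat.add_sub_cancel]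
    exact_mod_cast this
  have hall : ∀ k : ℕ, g k ≤ H * (k.factorial : ℝ) := by
    intro k
    induction k using Nat.strong_induction_on with
    | _ k ih =>
      rcases Nat.lt_or_ge k N with hkN | hkN
      · have h1 : g k / (k.factorial : ℝ) ≤ ∑ l ∈ range N, g l / (l.factorial : ℝ) :=
          Finset.single_le_sum (f := fun l => g l / (l.factorial : ℝ))
            (fun l _ => div_nonneg (hg l) (by positivity)) (Finset.mem_range.2 hkN)
        have h2 : g k / (k.factorial : ℝ) ≤ H := by rw [hH]; linarith
        rwa [div_le_iff₀ (by positivity)] at h2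
      · have h8 : 8 * lam ≤ (k : ℝ) := (Nat.le_ceil _).trans (by exact_mod_cast hkN)
        have hk1 : 1 ≤ k := by
          rcases Nat.eq_zero_or_pos k with h | h
          · rw [h, Nat.cast_zero] at h8
            linarith
          · exact h
        have h3 := hkey k hk1 ih
        have h4 : 4 * lam * H * ((k - 1).factorial : ℝ) ≤ H / 2 * (k.factorial : ℝ) := by
          rw [hfac k hk1]
          have h5 : 0 ≤ H * ((k - 1).factorial : ℝ) := by positivity
          nlinarith
        have h6 : 0 ≤ (k.factorial : ℝ) := by positivity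
        nlinarith
  refine ⟨4 * lam * H, by positivity, fun k hk => ?_⟩
  have h1 := hkey k hk fun l _ => hall l
  have hk0 : (0 : ℝ) < k := by exact_mod_cast hk
  have e : (k.factorial : ℝ) * (1 + 4 * lam * H / k) =
      (k.factorial : ℝ) + 4 * lam * H * ((k - 1).factorial : ℝ) := by
    rw [mul_add, mul_one]
    congr 1
    rw [hfac k hk]
    field_simp
  rw [e]
  exact h1

end Pool.Agent.Q166.DC.PermAsym
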