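import Pool.Agent.Q157.DC.Stm

/-!
# Project DC, job permrec
-/

set_option autoImplicit false

open Finset Filter Topology

namespace Pool.Agent.Q166.DC.PermRec

open Pool.Agent.Q157.DC

/-- `l` is a common level of `σ` -/
def lev {k : ℕ} (σ : Equiv.Perm (Fin k)) (l : ℕ) : Prop :=
  ∀ i : Fin k, (i : ℕ) < l → (σ i : ℕ) < l

/-- `Fin l` and the elements of `Fin k` below `l` -/
def eq1 (k l : ℕ) (h : l ≤ k) : {x : Fin k // (x : ℕ) < l} ≃ Fin l where
  toFun x := ⟨x.1.1, x.2⟩
  invFun y := ⟨⟨y.1, lt_of_lt_of_le y.2 h⟩, y.2⟩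
  left_inv _ := rfl
  right_inv _ := rfl

theorem lev_iff {k : ℕ} (σ : Equiv.Perm (Fin k)) (l : ℕ) (h : lev σ l) (x : Fin k) :
    ((σ x : ℕ) < l) ↔ ((x : ℕ) < l) := by
  constructor
  · intro hx
    let S : Finset (Fin k) := univ.filter (fun i => (i : ℕ) < l)
    have h1 : S.map σ.toEmbedding ⊆ S := by
      intro y hy
      rw [Finset.mem_map] at hy
      obtain ⟨i, hi, rfl⟩ := hy
      rw [Finset.mem_filter] at hi ⊢
      exact ⟨mem_univ _, h i hi.2⟩
    have h2 : S.map σ.toEmbedding = S := Finset.eq_of_subset_of_card_le h1 (by rw [Finset.card_map])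
    have h3 : σ x ∈ S := by
      rw [Finset.mem_filter]
      exact ⟨mem_univ _, hx⟩
    rw [← h2, Finset.mem_map] at h3
    obtain ⟨i, hi, he⟩ := h3
    have he' : σ i = σ x := he
    rw [← σ.injective he']
    rw [Finset.mem_filter] at hi
    exact hi.2
  · exact h x

open Classical in
/-- the restriction to the elements below `l` -/
noncomputable def p1 {k : ℕ} (l : ℕ) (hl : l ≤ k) (σ : Equiv.Perm (Fin k)) :
    Equiv.Perm (Fin l) :=
  if h : lev σ l then (eq1 k l hl).permCongr (σ.subtypePerm (lev_iff σ l h)) else 1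

open Classical in
/-- the restriction to the other elements -/
noncomputable def p2 {k : ℕ} (l : ℕ) (σ : Equiv.Perm (Fin k)) :
    Equiv.Perm {x : Fin k // ¬ (x : ℕ) < l} :=
  if h : lev σ l then σ.subtypePerm (fun x => not_congr (lev_iff σ l h x)) else 1

theorem p1_apply {k : ℕ} (l : ℕ) (hl : l ≤ k) (σ : Equiv.Perm (Fin k)) (h : lev σ l) (y : Fin l) :
    ((p1 l hl σ y : Fin l) : ℕ) = (σ ⟨y.1, lt_of_lt_of_le y.2 hl⟩ : ℕ) := by
  unfold p1
  rw [dif_pos h]
  rfl

theorem p2_apply {k : ℕ} (l : ℕ) (σ : Equiv.Perm (Fin k)) (h : lev σ l)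
    (y : {x : Fin k // ¬ (x : ℕ) < l}) : ((p2 l σ y).1 : Fin k) = σ y.1 := by
  unfold p2
  rw [dif_pos h]
  rfl

theorem lev_p1 {k : ℕ} (l : ℕ) (hl : l ≤ k) (σ : Equiv.Perm (Fin k)) (h : lev σ l) (j : ℕ)
    (hj : j < l) : lev (p1 l hl σ) j ↔ lev σ j := by
  constructor
  · intro h1 i hi
    have h2 := h1 ⟨i.1, by omega⟩ hi
    rw [p1_apply l hl σ h] at h2
    exact h2
  · intro h1 i hi
    rw [p1_apply l hl σ h]
    exact h1 _ hi

open Classical in
theorem cl_eq {k : ℕ} (σ : Equiv.Perm (Fin k)) :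
    cl σ = ((range k).filter (fun l => 0 < l ∧ lev σ l)).card := by
  unfold cl
  refine congrArg Finset.card ?_
  ext l
  rw [Finset.mem_filter, Finset.mem_filter]
  exact Iff.rfl

open Classical in
theorem cl_last {k : ℕ} (l : ℕ) (h0 : 0 < l) (hl : l < k) (σ : Equiv.Perm (Fin k))
    (h : lev σ l) (hlast : ∀ j, l < j → j < k → ¬ lev σ j) :
    cl σ = cl (p1 l hl.le σ) + 1 := by
  rw [cl_eq, cl_eq]
  have h1 : (range k).filter (fun j => 0 < j ∧ lev σ j) =
      insert l ((range l).filter (fun j => 0 < j ∧ lev (p1 l hl.le σ) j)) := by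
    ext j
    rw [Finset.mem_insert, Finset.mem_filter, Finset.mem_filter, Finset.mem_range,
      Finset.mem_range]
    constructor
    · rintro ⟨h2, h3, h4⟩
      rcases lt_trichotomy j l with h5 | h5 | h5
      · exact Or.inr ⟨h5, h3, (lev_p1 l hl.le σ h j h5).2 h4⟩
      · exact Or.inl h5
      · exact absurd h4 (hlast j h5 h2)
    · rintro (h2 | ⟨h2, h3, h4⟩)
      · rw [h2]
        exact ⟨hl, h0, h⟩
      · exact ⟨h2.trans hl, h3, (lev_p1 l hl.le σ h j h2).1 h4⟩
  rw [h1, Finset.card_insert_of_notMem]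
  intro hmem
  rw [Finset.mem_filter, Finset.mem_range] at hmem
  exact lt_irrefl _ hmem.1

open Classical in
theorem part {k : ℕ} (lam : ℝ) (hlam : 1 ≤ lam) (l : ℕ) (h0 : 0 < l) (hl : l < k) :
    ∑ σ ∈ (univ : Finset (Equiv.Perm (Fin k))).filter
      (fun σ => lev σ l ∧ ∀ j, l < j → j < k → ¬ lev σ j), lam ^ cl σ ≤
    lam * ((∑ τ : Equiv.Perm (Fin l), lam ^ cl τ) * ((k - l).factorial : ℝ)) := by
  set A := (univ : Finset (Equiv.Perm (Fin k))).filter
      (fun σ => lev σ l ∧ ∀ j, l < j → j < k → ¬ lev σ j) with hA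
  let G : Equiv.Perm (Fin k) → Equiv.Perm (Fin l) × Equiv.Perm {x : Fin k // ¬ (x : ℕ) < l} :=
    fun σ => (p1 l hl.le σ, p2 l σ)
  have hinj : Set.InjOn G A := by
    intro σ hσ τ hτ hG
    rw [Finset.mem_coe, hA, Finset.mem_filter] at hσ hτ
    have e1 : p1 l hl.le σ = p1 l hl.le τ := congrArg Prod.fst hG
    have e2 : p2 l σ = p2 l τ := congrArg Prod.snd hG
    ext x
    by_cases hx : (x : ℕ) < l
    · have h2 := p1_apply l hl.le σ hσ.2.1 ⟨x.1, hx⟩
      have h3 := p1_apply l hl.le τ hτ.2.1 ⟨x.1, hx⟩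
      rw [e1, h3] at h2
      exact h2.symm
    · have h2 := p2_apply l σ hσ.2.1 ⟨x, hx⟩
      have h3 := p2_apply l τ hτ.2.1 ⟨x, hx⟩
      rw [e2, h3] at h2
      exact congrArg Fin.val h2.symm
  have hcard : Fintype.card (Equiv.Perm {x : Fin k // ¬ (x : ℕ) < l}) = (k - l).factorial := by
    rw [Fintype.card_perm]
    congr 1
    rw [Fintype.card_subtype_compl, Fintype.card_fin, Fintype.card_congr (eq1 k l hl.le),
      Fintype.card_fin]
  calc ∑ σ ∈ A, lam ^ cl σ = ∑ σ ∈ A, lam ^ (cl (G σ).1 + 1) := by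
        refine Finset.sum_congr rfl fun σ hσ => ?_
        rw [hA, Finset.mem_filter] at hσ
        rw [cl_last l h0 hl σ hσ.2.1 hσ.2.2]
    _ = ∑ p ∈ A.image G, lam ^ (cl p.1 + 1) :=
        (Finset.sum_image (f := fun p : Equiv.Perm (Fin l) ×
          Equiv.Perm {x : Fin k // ¬ (x : ℕ) < l} => lam ^ (cl p.1 + 1)) hinj).symm
    _ ≤ ∑ p : Equiv.Perm (Fin l) × Equiv.Perm {x : Fin k // ¬ (x : ℕ) < l},
          lam ^ (cl p.1 + 1) :=
        Finset.sum_le_sum_of_subset_of_nonneg (subset_univ _) fun p _ _ => by positivity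
    _ = ∑ τ : Equiv.Perm (Fin l), ∑ _τ' : Equiv.Perm {x : Fin k // ¬ (x : ℕ) < l},
          lam ^ (cl τ + 1) := Fintype.sum_prod_type _
    _ = ∑ τ : Equiv.Perm (Fin l), ((k - l).factorial : ℝ) * lam ^ (cl τ + 1) := by
        refine Finset.sum_congr rfl fun τ _ => ?_
        rw [Finset.sum_const, Finset.card_univ, hcard, nsmul_eq_mul]
    _ = _ := by
        rw [Finset.sum_mul, Finset.mul_sum]
        refine Finset.sum_congr rfl fun τ _ => ?_
        rw [pow_succ]
        ring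

theorem perm_rec : S_perm_rec := by
  intro lam hlam k
  classical
  have h1 : ∀ σ : Equiv.Perm (Fin k), lam ^ cl σ ≤ 1 + ∑ l ∈ Finset.Ico 1 k,
      (if lev σ l ∧ ∀ j, l < j → j < k → ¬ lev σ j then lam ^ cl σ else 0) := by
    intro σ
    have hnn : ∀ l ∈ Finset.Ico 1 k,
        0 ≤ (if lev σ l ∧ ∀ j, l < j → j < k → ¬ lev σ j then lam ^ cl σ else 0) := by
      intro l _
      split_ifs
      · positivity
      · exact le_rfl
    by_cases hex : ((range k).filter (fun l => 0 < l ∧ lev σ l)).Nonempty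
    · set l := ((range k).filter (fun l => 0 < l ∧ lev σ l)).max' hex with hl
      have hmem := Finset.max'_mem _ hex
      rw [← hl, Finset.mem_filter, Finset.mem_range] at hmem
      have hlast : ∀ j, l < j → j < k → ¬ lev σ j := by
        intro j hj hjk hlev
        have : j ≤ l := by
          rw [hl]
          refine Finset.le_max' _ _ ?_
          rw [Finset.mem_filter, Finset.mem_range]
          exact ⟨hjk, by omega, hlev⟩
        omega
      have h2 := Finset.single_le_sum hnn (Finset.mem_Ico.2 ⟨hmem.2.1, hmem.1⟩)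
      rw [if_pos ⟨hmem.2.2, hlast⟩] at h2
      linarith
    · have h3 : cl σ = 0 := by
        rw [cl_eq]
        rw [Finset.not_nonempty_iff_eq_empty] at hex
        rw [hex, Finset.card_empty]
      have h4 := Finset.sum_nonneg hnn
      rw [h3] at h4 ⊢
      rw [pow_zero] at h4 ⊢
      linarith
  calc ∑ σ : Equiv.Perm (Fin k), lam ^ cl σ
      ≤ ∑ σ : Equiv.Perm (Fin k), (1 + ∑ l ∈ Finset.Ico 1 k,
        (if lev σ l ∧ ∀ j, l < j → j < k → ¬ lev σ j then lam ^ cl σ else 0)) :=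
        Finset.sum_le_sum fun σ _ => h1 σ
    _ = (k.factorial : ℝ) + ∑ l ∈ Finset.Ico 1 k, ∑ σ : Equiv.Perm (Fin k),
        (if lev σ l ∧ ∀ j, l < j → j < k → ¬ lev σ j then lam ^ cl σ else 0) := by
        rw [Finset.sum_add_distrib, Finset.sum_comm]
        congr 1
        rw [Finset.sum_const, Finset.card_univ, Fintype.card_perm, Fintype.card_fin,
          nsmul_eq_mul, mul_one]
    _ ≤ (k.factorial : ℝ) + ∑ l ∈ Finset.Ico 1 k,
        lam * ((∑ τ : Equiv.Perm (Fin l), lam ^ cl τ) * ((k - l).factorial : ℝ)) := by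
        refine add_le_add le_rfl (Finset.sum_le_sum fun l hl => ?_)
        rw [Finset.mem_Ico] at hl
        rw [← Finset.sum_filter]
        exact part lam hlam l (by omega) hl.2
    _ = _ := by rw [Finset.mul_sum]

end Pool.Agent.Q166.DC.PermRec
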