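import Pool.Agent.Q157.DC.Stm

/-!
# Project DC, job upper
-/

set_option autoImplicit false

open Finset Filter Topology
open scoped symmDiff

namespace Pool.Agent.Q166.DC.Upper

open Pool.Agent.Q157.DC

theorem card_tri {n : ℕ} (u v w : Vx n) : (u ∆ w).card ≤ (u ∆ v).card + (v ∆ w).card := by
  have h6 : u ∆ w ⊆ (u ∆ v) ∪ (v ∆ w) := symmDiff_triangle u v w
  exact (Finset.card_le_card h6).trans (Finset.card_union_le _ _)

theorem card_le_walk {n : ℕ} (ω : Om n) {u v : Vx n} (w : (hG ω).Walk u v) :
    (u ∆ v).card ≤ w.length := by
  induction w with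
  | nil => simp
  | cons h p ih =>
    rename_i a b c
    have h1 := card_tri a b c
    have h2 : (a ∆ b).card = 1 := h.1
    rw [SimpleGraph.Walk.length_cons]
    omega

theorem upper : S_upper := by
  intro δ m hδ0 hδ1
  refine ⟨4 * m, fun n hn ω hbad H x y hx hy hr => ?_⟩
  obtain ⟨w, hw⟩ := hr.exists_walk_length_eq_dist
  set L := (hG ω).dist x y with hL
  by_cases hLm : L < m
  · omega
  rw [not_lt] at hLm
  set f : ℕ → Vx n := fun i => w.getVert i with hf
  have hf0 : f 0 = x := w.getVert_zero
  have hfL : f L = y := by
    rw [hf, ← hw]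
    exact w.getVert_length
  have hadj : ∀ i < L, (hG ω).Adj (f i) (f (i + 1)) := fun i hi =>
    w.adj_getVert_succ (by rw [hw]; exact hi)
  have hw1 : ∀ i ≤ L, ∃ p : (hG ω).Walk x (f i), p.length = i := by
    intro i
    induction i with
    | zero =>
      intro _
      rw [hf0]
      exact ⟨SimpleGraph.Walk.nil, rfl⟩
    | succ i ih =>
      intro hi
      obtain ⟨p, hp⟩ := ih (by omega)
      exact ⟨p.concat (hadj i (by omega)), by rw [SimpleGraph.Walk.length_concat, hp]⟩
  have hw2 : ∀ i ≤ L, ∃ p : (hG ω).Walk (f (L - i)) y, p.length = i := by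
    intro i
    induction i with
    | zero =>
      intro _
      rw [Nat.sub_zero, hfL]
      exact ⟨SimpleGraph.Walk.nil, rfl⟩
    | succ i ih =>
      intro hi
      obtain ⟨p, hp⟩ := ih (by omega)
      have h1 := hadj (L - (i + 1)) (by omega)
      rw [show L - (i + 1) + 1 = L - i by omega] at h1
      exact ⟨SimpleGraph.Walk.cons h1 p, by rw [SimpleGraph.Walk.length_cons, hp]⟩
  have hinj : ∀ i j, i ≤ L → j ≤ L → f i = f j → i = j := by
    have key : ∀ i j, i < j → j ≤ L → f i ≠ f j := by
      intro i j hij hj he
      obtain ⟨p, hp⟩ := hw1 i (by omega)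
      have hw3 := hw2 (L - j) (by omega)
      rw [show L - (L - j) = j by omega, ← he] at hw3
      obtain ⟨q, hq⟩ := hw3
      have h1 := SimpleGraph.dist_le (p.append q)
      rw [SimpleGraph.Walk.length_append, hp, hq, ← hL] at h1
      omega
    intro i j hi hj he
    rcases lt_trichotomy i j with h | h | h
    · exact absurd he (key i j h hj)
    · exact h
    · exact absurd he.symm (key j i h hi)
  have hpres : ∀ i ≤ L, pres ω (f i) := by
    intro i hi
    rcases Nat.eq_zero_or_pos i with h0 | h0
    · rw [h0, hf0]
      exact hx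
    · have h1 := hadj (i - 1) (by omega)
      rw [show i - 1 + 1 = i by omega] at h1
      exact h1.2.2.1
  have hdx : ∀ i ≤ L, (x ∆ f i).card ≤ i := by
    intro i hi
    obtain ⟨p, hp⟩ := hw1 i hi
    exact (card_le_walk ω p).trans hp.le
  have hdy : ∀ i ≤ L, (f (L - i) ∆ y).card ≤ i := by
    intro i hi
    obtain ⟨p, hp⟩ := hw2 i hi
    exact (card_le_walk ω p).trans hp.le
  -- the first rich vertex
  have hexa : ∃ i, i ≤ m ∧ ¬ poor δ ω (f i) := by
    by_contra hc
    push Not at hc
    refine hbad ⟨x, (range (m + 1)).image f, ?_, ?_, ?_⟩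
    · rw [Finset.card_image_of_injOn, Finset.card_range]
      intro i hi j hj he
      rw [Finset.coe_range, Set.mem_Iio] at hi hj
      exact hinj i j (by omega) (by omega) he
    · intro s hs
      obtain ⟨i, hi, rfl⟩ := Finset.mem_image.1 hs
      rw [Finset.mem_range] at hi
      have := hdx i (by omega)
      exact Or.inl (by omega)
    · intro s hs
      obtain ⟨i, hi, rfl⟩ := Finset.mem_image.1 hs
      rw [Finset.mem_range] at hi
      exact hc i (by omega)
  have hexb : ∃ i, i ≤ m ∧ ¬ poor δ ω (f (L - i)) := by
    by_contra hc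
    push Not at hc
    refine hbad ⟨y, (range (m + 1)).image (fun i => f (L - i)), ?_, ?_, ?_⟩
    · rw [Finset.card_image_of_injOn, Finset.card_range]
      intro i hi j hj he
      rw [Finset.coe_range, Set.mem_Iio] at hi hj
      have := hinj (L - i) (L - j) (by omega) (by omega) he
      omega
    · intro s hs
      obtain ⟨i, hi, rfl⟩ := Finset.mem_image.1 hs
      rw [Finset.mem_range] at hi
      have := hdy i (by omega)
      rw [symmDiff_comm] at this
      exact Or.inl (by omega)
    · intro s hs
      obtain ⟨i, hi, rfl⟩ := Finset.mem_image.1 hs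
      rw [Finset.mem_range] at hi
      exact hc i (by omega)
  classical
  set a := Nat.find hexa with ha
  set b := Nat.find hexb with hb
  obtain ⟨ham, har⟩ := Nat.find_spec hexa
  obtain ⟨hbm, hbr⟩ := Nat.find_spec hexb
  rw [← ha] at ham har
  rw [← hb] at hbm hbr
  have hamin : ∀ i < a, poor δ ω (f i) := by
    intro i hi
    have := Nat.find_min hexa hi
    push Not at this
    exact this (by omega)
  have hbmin : ∀ i < b, poor δ ω (f (L - i)) := by
    intro i hi
    have := Nat.find_min hexb hi
    push Not at this
    exact this (by omega)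
  have hab : b ≤ L - a := by
    by_cases h1 : L - a ≤ m
    · refine Nat.find_min' hexb ⟨h1, ?_⟩
      rw [show L - (L - a) = a by omega]
      exact har
    · omega
  obtain ⟨hreach, hdist⟩ := H (f a) (f (L - b)) (hpres a (by omega)) (hpres (L - b) (by omega))
    har hbr
  have hLle : L ≤ a + (hG ω).dist (f a) (f (L - b)) + b := by
    obtain ⟨p, hp⟩ := hw1 a (by omega)
    obtain ⟨q, hq⟩ := hw2 b (by omega)
    obtain ⟨r, hr'⟩ := hreach.exists_walk_length_eq_dist
    have h1 := SimpleGraph.dist_le ((p.append r).append q)
    rw [SimpleGraph.Walk.length_append, SimpleGraph.Walk.length_append, hp, hq, hr', ← hL] at h1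
    exact h1
  rcases le_total (f a ∆ f (L - b)).card (n - 2 * m) with hcase | hcase
  · rw [max_eq_right hcase] at hdist
    omega
  rw [max_eq_left hcase] at hdist
  have hn1 : (f a ∆ f (L - b)).card ≤ n := by
    refine (Finset.card_le_univ _).trans ?_
    rw [Fintype.card_fin]
  by_cases hxy : (x ∆ y).card + 3 * m < n
  · have h1 := card_tri (f a) x (f (L - b))
    have h2 := card_tri x y (f (L - b))
    have h3 := hdx a (by omega)
    have h4 := hdy b (by omega)
    rw [symmDiff_comm] at h3 h4
    omega
  · rw [not_lt] at hxy
    have hsum : a + b ≤ m := by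
      by_contra hc
      rw [not_le] at hc
      let g : ℕ → Vx n := fun i => if i < a then f i else f (L - (i - a))
      have hg1 : ∀ i, i < a → g i = f i := fun i hi => if_pos hi
      have hg2 : ∀ i, ¬ i < a → g i = f (L - (i - a)) := fun i hi => if_neg hi
      refine hbad ⟨x, (range (m + 1)).image g, ?_, ?_, ?_⟩
      · rw [Finset.card_image_of_injOn, Finset.card_range]
        intro i hi j hj he
        rw [Finset.coe_range, Set.mem_Iio] at hi hj
        by_cases h1 : i < a
        · by_cases h2 : j < a
          · rw [hg1 i h1, hg1 j h2] at he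
            exact hinj i j (by omega) (by omega) he
          · rw [hg1 i h1, hg2 j h2] at he
            have := hinj i _ (by omega) (by omega) he
            omega
        · by_cases h2 : j < a
          · rw [hg2 i h1, hg1 j h2] at he
            have := hinj _ j (by omega) (by omega) he
            omega
          · rw [hg2 i h1, hg2 j h2] at he
            have := hinj _ _ (by omega) (by omega) he
            omega
      · intro s hs
        obtain ⟨i, hi, rfl⟩ := Finset.mem_image.1 hs
        rw [Finset.mem_range] at hi
        by_cases h1 : i < a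
        · rw [hg1 i h1]
          have := hdx i (by omega)
          exact Or.inl (by omega)
        · rw [hg2 i h1]
          refine Or.inr ?_
          have h2 := hdy (i - a) (by omega)
          have h3 := card_tri x (f (L - (i - a))) y
          omega
      · intro s hs
        obtain ⟨i, hi, rfl⟩ := Finset.mem_image.1 hs
        rw [Finset.mem_range] at hi
        by_cases h1 : i < a
        · rw [hg1 i h1]
          exact hamin i h1
        · rw [hg2 i h1]
          exact hbmin (i - a) (by omega)
    omega

end Pool.Agent.Q166.DC.Upper
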